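import Pool.Agent.W345.Phi.Base
set_option autoImplicit false

/-! PHI1: basic facts on the theta transform. -/

namespace Pool.Agent.W345.Phi

open Complex MeasureTheory Filter Topology
open scoped ENNReal FourierTransform
open Pool.Agent.W759

variable {ε : ℂ} {f : ℝ → ℂ}

/-- the Gaussian -/
noncomputable def gz (z : ℂ) (x : ℝ) : ℂ := exp (I * Real.pi * z * x ^ 2)

lemma gz_cont (z : ℂ) : Continuous (gz z) := by unfold gz; fun_prop

lemma gz_norm (z : ℂ) (x : ℝ) : ‖gz z x‖ = Real.exp (-(Real.pi * z.im * x ^ 2)) := by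
  have h := exp_norm z (x ^ 2)
  unfold gz
  push_cast at h
  exact h

lemma gz_le {z : ℂ} (hz : 0 ≤ z.im) (x : ℝ) : ‖gz z x‖ ≤ 1 := by
  rw [gz_norm]
  apply Real.exp_le_one_iff.2
  have := Real.pi_pos
  have : 0 ≤ Real.pi * z.im * x ^ 2 := by positivity
  linarith

lemma Phi_eq (z : ℂ) : Phi f z = ∫ x : ℝ, f x * gz z x := rfl

lemma sq_exp_le {a : ℝ} (ha : 0 < a) (x : ℝ) : x ^ 2 * Real.exp (-(a * x ^ 2)) ≤ a⁻¹ := by
  have h1 : a * x ^ 2 ≤ Real.exp (a * x ^ 2) := by
    linarith [Real.add_one_le_exp (a * x ^ 2)]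
  rw [Real.exp_neg, ← div_eq_mul_inv, div_le_iff₀ (Real.exp_pos _)]
  rw [inv_mul_eq_div, le_div_iff₀ ha]
  linarith

lemma bound_int (h : FDat ε f) {z : ℂ} (hz : 0 ≤ z.im) : Integrable fun x => f x * gz z x :=
  (integ h).mul_bdd (gz_cont z).aestronglyMeasurable (Eventually.of_forall (gz_le hz))

lemma Phi_deriv (h : FDat ε f) {z : ℂ} (hz : 0 < z.im) :
    HasDerivAt (Phi f) (∫ x : ℝ, f x * (I * Real.pi * x ^ 2 * gz z x)) z := by
  have hU : {w : ℂ | z.im / 2 < w.im} ∈ 𝓝 z := by
    apply IsOpen.mem_nhds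
    · exact isOpen_lt continuous_const Complex.continuous_im
    · simp only [Set.mem_ofPred_eq]; linarith
  have ha : 0 < Real.pi * (z.im / 2) := by have := Real.pi_pos; positivity
  refine (hasDerivAt_integral_of_dominated_loc_of_deriv_le (μ := volume)
    (F := fun w (x : ℝ) => f x * gz w x)
    (F' := fun w (x : ℝ) => f x * (I * Real.pi * x ^ 2 * gz w x))
    (bound := fun x => ‖f x‖ * (Real.pi * (Real.pi * (z.im / 2))⁻¹))
    hU ?_ ?_ ?_ ?_ ?_ ?_).2
  · refine Eventually.of_forall fun w => ?_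
    exact (h.cont.mul (gz_cont w)).aestronglyMeasurable
  · exact bound_int h hz.le
  · have := h.cont
    have := gz_cont z
    apply Continuous.aestronglyMeasurable
    fun_prop
  · refine Eventually.of_forall fun x w hw => ?_
    simp only [Set.mem_ofPred_eq] at hw
    rw [norm_mul]
    apply mul_le_mul_of_nonneg_left _ (norm_nonneg _)
    rw [norm_mul, norm_mul, norm_mul, Complex.norm_I, one_mul, gz_norm, norm_pow, Complex.norm_real,
      Complex.norm_real, Real.norm_of_nonneg Real.pi_pos.le, Real.norm_eq_abs, sq_abs, mul_assoc]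
    apply mul_le_mul_of_nonneg_left _ Real.pi_pos.le
    refine le_trans ?_ (sq_exp_le ha x)
    apply mul_le_mul_of_nonneg_left _ (sq_nonneg _)
    apply Real.exp_le_exp.2
    have := Real.pi_pos
    have h1 : 0 ≤ Real.pi * x ^ 2 := by positivity
    nlinarith
  · exact (integ h).norm.mul_const _
  · refine Eventually.of_forall fun x w _ => ?_
    apply HasDerivAt.const_mul
    unfold gz
    have h1 : HasDerivAt (fun w : ℂ => I * Real.pi * w * x ^ 2) (I * Real.pi * x ^ 2) w := by
      have := ((hasDerivAt_id w).const_mul (I * Real.pi)).mul_const ((x : ℂ) ^ 2)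
      simpa using this
    have h2 := h1.cexp
    refine h2.congr_deriv ?_
    ring

lemma Phi_bdd (h : FDat ε f) {z : ℂ} (hz : 0 ≤ z.im) : ‖Phi f z‖ ≤ CB f := by
  rw [Phi_eq]
  refine (norm_integral_le_integral_norm _).trans ?_
  apply integral_mono (bound_int h hz).norm (integ h).norm
  intro x
  simp only [norm_mul]
  exact mul_le_of_le_one_right (norm_nonneg _) (gz_le hz x)

lemma half_line {g : ℝ → ℂ} (he : ∀ x, g (-x) = g x) (hi : Integrable g) :
    ∫ x, g x = 2 * ∫ x in Set.Ioi (0:ℝ), g x := by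
  have h1 := integral_add_compl (μ := volume) (measurableSet_Ioi (a := (0:ℝ))) hi
  have h2 : ∫ x in (Set.Ioi (0:ℝ))ᶜ, g x = ∫ x in Set.Ioi (0:ℝ), g x := by
    rw [Set.compl_Ioi]
    have := integral_comp_neg_Iic (0:ℝ) g
    rw [neg_zero] at this
    rw [← this]
    simp_rw [he]
  rw [← h1, h2, two_mul]

lemma deriv_form (h : FDat ε f) {z : ℂ} (hz : 0 < z.im) :
    deriv (Phi f) z = ∫ t in Set.Ioi (0 : ℝ), gf f t * exp (I * Real.pi * z * t) := by
  rw [(Phi_deriv h hz).deriv]
  rw [half_line (g := fun x : ℝ => f x * (I * Real.pi * x ^ 2 * gz z x))]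
  · rw [← integral_comp_rpow_Ioi_of_pos (g := fun t : ℝ => gf f t * exp (I * Real.pi * z * t))
      (by norm_num : (0:ℝ) < 2), ← integral_const_mul]
    apply setIntegral_congr_fun measurableSet_Ioi
    intro x hx
    have hx0 : (0:ℝ) < x := hx
    simp only
    have e1 : x ^ (2:ℝ) = x ^ 2 := by norm_cast
    have e2 : x ^ ((2:ℝ) - 1) = x := by norm_num
    rw [e1, e2]
    unfold gf gz
    rw [Real.sqrt_sq hx0.le]
    rw [Complex.real_smul]
    push_cast
    ring
  · intro x
    simp only [gz, h.even, ofReal_neg, neg_sq]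
  · have hb : ∀ x : ℝ, ‖I * Real.pi * x ^ 2 * gz z x‖ ≤ Real.pi * (Real.pi * z.im)⁻¹ := by
      intro x
      have ha : 0 < Real.pi * z.im := by have := Real.pi_pos; positivity
      rw [norm_mul, norm_mul, norm_mul, Complex.norm_I, one_mul, gz_norm, norm_pow,
        Complex.norm_real,
        Complex.norm_real, Real.norm_of_nonneg Real.pi_pos.le, Real.norm_eq_abs, sq_abs, mul_assoc]
      apply mul_le_mul_of_nonneg_left _ Real.pi_pos.le
      exact sq_exp_le ha x
    refine (integ h).mul_bdd ?_ (Eventually.of_forall hb)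
    have := gz_cont z
    apply Continuous.aestronglyMeasurable
    fun_prop

lemma four_gz {z : ℂ} (hz : 0 < z.im) (t : ℝ) : 𝓕 (gz z) t = (J z)⁻¹ * gz (-z⁻¹) t := by
  have hb : 0 < (-I * z).re := J_arg hz
  have h1 := fourier_gaussian_pi hb
  have h2 : gz z = fun x : ℝ => exp (-(Real.pi : ℂ) * (-I * z) * x ^ 2) := by
    funext x
    unfold gz
    congr 1
    ring
  rw [h2, h1]
  simp only
  have h0 := ne_zero_of_im hz
  unfold J gz
  rw [one_div]
  congr 2
  have hI : I ≠ 0 := Complex.I_ne_zero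
  have h3 : (-(Real.pi : ℂ) / (-I * z)) = I * Real.pi * -z⁻¹ := by
    field_simp
    rw [Complex.I_sq]
    ring
  rw [h3]

lemma gz_int {z : ℂ} (hz : 0 < z.im) : Integrable (gz z) := by
  have h1 : 0 < (-(I * Real.pi * z)).re := by
    have := Real.pi_pos
    simp
    positivity
  have h2 := integrable_cexp_neg_mul_sq h1
  refine h2.congr (Eventually.of_forall fun x => ?_)
  unfold gz
  simp only
  congr 1
  ring

lemma neg_inv_im {z : ℂ} (hz : 0 < z.im) : 0 < (-z⁻¹).im := by
  have h0 := ne_zero_of_im hz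
  have := Complex.normSq_pos.2 h0
  rw [Complex.neg_im, Complex.inv_im]
  rw [neg_div, neg_neg]
  positivity

lemma inversion (h : FDat ε f) {z : ℂ} (hz : 0 < z.im) : Phi f (-z⁻¹) = ε * J z * Phi f z := by
  have hJ := J_ne hz
  have h1 : ∫ x, 𝓕 f x * gz z x = ∫ x, f x * 𝓕 (gz z) x := by
    have h2 := VectorFourier.integral_fourierIntegral_smul_eq_flip (L := innerₗ ℝ)
      (f := f) (g := gz z) (μ := volume) (ν := volume) Real.continuous_fourierChar continuous_inner
      (integ h) (gz_int hz)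
    simp only [smul_eq_mul, flip_innerₗ] at h2
    exact h2
  have h2 : ∫ x, 𝓕 f x * gz z x = ε * Phi f z := by
    rw [Phi_eq, ← integral_const_mul]
    congr 1
    funext x
    rw [h.four]
    ring
  have h3 : ∫ x, f x * 𝓕 (gz z) x = (J z)⁻¹ * Phi f (-z⁻¹) := by
    rw [Phi_eq, ← integral_const_mul]
    congr 1
    funext x
    rw [four_gz hz]
    ring
  rw [h2, h3] at h1
  rw [mul_right_comm, mul_comm _ (J z), h1, ← mul_assoc, mul_inv_cancel₀ hJ, one_mul]

lemma int_zero (h : FDat ε f) : ∫ x, f x = 0 := by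
  have h1 := h.four 0
  have h2 := h.zero 0
  simp only [Nat.cast_zero, Real.sqrt_zero] at h2
  rw [h2, mul_zero] at h1
  rw [← h1, Real.fourier_real_eq_integral_exp_smul]
  congr 1
  funext x
  simp

lemma lim_zero (h : FDat ε f) :
    ∀ δ > 0, ∃ r > 0, ∀ z : ℂ, 0 < z.im → ‖z‖ ≤ r → ‖Phi f z‖ ≤ δ := by
  intro δ hδ
  have h1 : Tendsto (fun z : ℂ => ∫ x : ℝ, f x * gz z x) (𝓝[{z : ℂ | 0 < z.im}] 0)
      (𝓝 (∫ x : ℝ, f x)) := by
    apply tendsto_integral_filter_of_dominated_convergence (fun x => ‖f x‖)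
    · refine Eventually.of_forall fun w => ?_
      exact (h.cont.mul (gz_cont w)).aestronglyMeasurable
    · filter_upwards [self_mem_nhdsWithin] with w hw
      refine Eventually.of_forall fun x => ?_
      rw [norm_mul]
      exact mul_le_of_le_one_right (norm_nonneg _) (gz_le (le_of_lt hw) x)
    · exact (integ h).norm
    · refine Eventually.of_forall fun x => ?_
      have h2 : Continuous fun z : ℂ => f x * gz z x := by
        unfold gz; fun_prop
      have h3 := (h2.tendsto 0).mono_left (nhdsWithin_le_nhds (s := {z : ℂ | 0 < z.im}))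
      simpa [gz] using h3
  rw [int_zero h] at h1
  rw [Metric.tendsto_nhdsWithin_nhds] at h1
  obtain ⟨r, hr, h2⟩ := h1 δ hδ
  refine ⟨r / 2, by positivity, fun z hz hzr => ?_⟩
  have h3 := h2 (x := z) hz (by rw [dist_zero_right]; linarith)
  rw [dist_zero_right] at h3
  exact h3.le

theorem main1 : Pool.Agent.W759.StPhi1 := by
  intro ε f h
  refine ⟨CB f, CB_nonneg, bdd h, fun z hz => (Phi_deriv h hz).differentiableAt,
    fun z hz => Phi_bdd h hz.le, fun z hz => inversion h hz, lim_zero h,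
    fun z hz => deriv_form h hz⟩

end Pool.Agent.W345.Phi
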