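import Pool.Agent.W345.Phi.Phi4
import Pool.Agent.H153R4.Pl
set_option autoImplicit false

/-! PHI2: weighted L2 bound of the derivative by Plancherel. -/

namespace Pool.Agent.W345.Phi

open Complex MeasureTheory Filter Topology Asymptotics
open scoped ENNReal FourierTransform
open Pool.Agent.W759

variable {ε : ℂ} {f : ℝ → ℂ}

lemma FF_zero {z : ℂ} {s : ℝ} (hs : s ≤ 0) : FF f z s = 0 := by
  unfold FF
  rw [gf_neg hs, zero_mul]

lemma FF_integrable (h : FDat ε f) {z : ℂ} (hz : 0 < z.im) : Integrable (FF f z) := by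
  have hc : 0 < Real.pi * z.im := by have := Real.pi_pos; positivity
  have h1 : IntegrableOn (FF f z) (Set.Ioi 0) := by
    have h2 : IntegrableOn (fun s : ℝ => Real.pi * CB f * (1 + 2 / (Real.pi * z.im)) *
        Real.exp (-(Real.pi * z.im / 2) * s)) (Set.Ioi 0) :=
      (exp_neg_integrableOn_Ioi 0 (by positivity)).const_mul _
    refine Integrable.mono' h2 (FF_cont h z).aestronglyMeasurable ?_
    refine (ae_restrict_iff' measurableSet_Ioi).2 (Eventually.of_forall fun s hs => ?_)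
    have hs0 : (0:ℝ) < s := hs
    refine (FF_norm h hs0.le).trans ?_
    have h3 : 0 ≤ CB f := CB_nonneg
    have h4 := Real.pi_pos
    have h5 : Real.pi * z.im / 2 * s ≤ Real.exp (Real.pi * z.im / 2 * s) := by
      linarith [Real.add_one_le_exp (Real.pi * z.im / 2 * s)]
    have h6 : 1 ≤ Real.exp (Real.pi * z.im / 2 * s) := Real.one_le_exp (by positivity)
    have h7 : s ≤ 2 / (Real.pi * z.im) * Real.exp (Real.pi * z.im / 2 * s) := by
      rw [div_mul_eq_mul_div, le_div_iff₀ hc]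
      linarith
    have h8 : Real.exp (-(Real.pi * z.im / 2) * s)
        = Real.exp (Real.pi * z.im / 2 * s) * Real.exp (-(Real.pi * z.im * s)) := by
      rw [← Real.exp_add]
      congr 1
      ring
    rw [h8, ← mul_assoc]
    apply mul_le_mul_of_nonneg_right _ (Real.exp_pos _).le
    rw [mul_assoc (Real.pi * CB f)]
    apply mul_le_mul_of_nonneg_left _ (by positivity)
    rw [add_mul, one_mul]
    linarith
  have h2 : IntegrableOn (FF f z) (Set.Ioi 0)ᶜ := by
    rw [Set.compl_Ioi]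
    refine IntegrableOn.congr_fun (f := fun _ => (0:ℂ)) integrableOn_zero ?_ measurableSet_Iic
    intro x hx
    exact (FF_zero hx).symm
  have := h1.union h2
  rwa [Set.union_compl_self, integrableOn_univ] at this

lemma FF_bounded (h : FDat ε f) {z : ℂ} (hz : 0 < z.im) : ∃ K : ℝ, ∀ s, ‖FF f z s‖ ≤ K := by
  have hc : 0 < Real.pi * z.im := by have := Real.pi_pos; positivity
  have h3 : 0 ≤ CB f := CB_nonneg
  have h4 := Real.pi_pos
  refine ⟨Real.pi * CB f * (1 + (Real.pi * z.im)⁻¹), fun s => ?_⟩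
  rcases le_or_gt s 0 with hs | hs
  · rw [FF_zero hs, norm_zero]
    positivity
  · refine (FF_norm h hs.le).trans ?_
    rw [mul_assoc (Real.pi * CB f)]
    apply mul_le_mul_of_nonneg_left _ (by positivity)
    rw [Real.exp_neg, ← div_eq_mul_inv, div_le_iff₀ (Real.exp_pos _)]
    have h5 : Real.pi * z.im * s ≤ Real.exp (Real.pi * z.im * s) := by
      linarith [Real.add_one_le_exp (Real.pi * z.im * s)]
    have h6 : 1 ≤ Real.exp (Real.pi * z.im * s) := Real.one_le_exp (by positivity)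
    have h7 : s ≤ (Real.pi * z.im)⁻¹ * Real.exp (Real.pi * z.im * s) := by
      rw [inv_mul_eq_div, le_div_iff₀ hc]
      linarith
    rw [add_mul, one_mul]
    linarith

lemma FF_memLp (h : FDat ε f) {z : ℂ} (hz : 0 < z.im) : MemLp (FF f z) 2 := by
  obtain ⟨K, hK⟩ := FF_bounded h hz
  rw [memLp_two_iff_integrable_sq_norm (FF_cont h z).aestronglyMeasurable]
  have h1 : Integrable (fun x => ‖FF f z x‖ * ‖FF f z x‖) := by
    refine (FF_integrable h hz).norm.mul_bdd (c := K) (FF_cont h z).norm.aestronglyMeasurable ?_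
    exact Eventually.of_forall fun x => by rw [norm_norm]; exact hK x
  refine h1.congr (Eventually.of_forall fun x => ?_)
  simp only
  ring

lemma deriv_eq_four (hd : ∀ z : ℂ, 0 < z.im →
    deriv (Phi f) z = ∫ t in Set.Ioi (0 : ℝ), gf f t * exp (I * Real.pi * z * t))
    {y : ℝ} (hy : 0 < y) (x : ℝ) :
    deriv (Phi f) (x + y * I) = 𝓕 (FF f (y * I)) (-(1 / 2) * x) := by
  rw [hd _ (by simpa using hy), Real.fourier_real_eq_integral_exp_smul]
  symm
  rw [← setIntegral_eq_integral_of_forall_compl_eq_zero (s := Set.Ioi (0:ℝ))]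
  · apply setIntegral_congr_fun measurableSet_Ioi
    intro t ht
    simp only [FF, smul_eq_mul]
    rw [mul_comm (Complex.exp _), mul_assoc, ← Complex.exp_add]
    congr 2
    push_cast
    ring
  · intro t ht
    rw [Set.mem_Ioi, not_lt] at ht
    rw [FF_zero ht]
    simp

lemma line_L2 (h : FDat ε f) (hd : ∀ z : ℂ, 0 < z.im →
    deriv (Phi f) z = ∫ t in Set.Ioi (0 : ℝ), gf f t * exp (I * Real.pi * z * t))
    {y : ℝ} (hy : 0 < y) :
    ∫⁻ x : ℝ, ‖deriv (Phi f) (x + y * I)‖ₑ ^ 2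
      = 2 * ∫⁻ t in Set.Ioi (0:ℝ), ENNReal.ofReal (Real.pi ^ 2 * t * ‖f (Real.sqrt t)‖ ^ 2) *
        ENNReal.ofReal (Real.exp (-(2 * Real.pi * t * y))) := by
  have hy' : 0 < ((y : ℂ) * I).im := by simpa using hy
  simp_rw [deriv_eq_four hd hy]
  have hcont : Continuous (𝓕 (FF f (y * I))) := by
    have := VectorFourier.fourierIntegral_continuous (L := innerₗ ℝ) Real.continuous_fourierChar
      continuous_inner (FF_integrable h hy')
    exact this
  have h1 : ∫⁻ x : ℝ, ‖𝓕 (FF f (y * I)) (-(1 / 2) * x)‖ₑ ^ 2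
      = 2 * ∫⁻ x : ℝ, ‖𝓕 (FF f (y * I)) x‖ₑ ^ 2 := by
    have h2 := Real.map_volume_mul_left (a := (-(1 / 2) : ℝ)) (by norm_num)
    have h3 := lintegral_map (μ := volume) (g := fun x : ℝ => (-(1 / 2) : ℝ) * x)
      (f := fun x : ℝ => ‖𝓕 (FF f (y * I)) x‖ₑ ^ 2)
      (hcont.enorm.measurable.pow_const 2) (measurable_const_mul _)
    rw [← h3, h2, lintegral_smul_measure]
    congr 1
    rw [abs_inv, abs_neg, abs_of_pos (by norm_num : (0:ℝ) < 1 / 2)]
    norm_num
  rw [h1, Pool.Agent.H153R4.plancherel _ (FF_integrable h hy') (FF_memLp h hy')]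
  congr 1
  have h4 : ∫⁻ x : ℝ, ‖FF f (y * I) x‖ₑ ^ 2 = ∫⁻ x in Set.Ioi (0:ℝ), ‖FF f (y * I) x‖ₑ ^ 2 := by
    rw [← lintegral_indicator measurableSet_Ioi]
    congr 1
    funext x
    rw [Set.indicator_apply]
    split_ifs with hx
    · rfl
    · rw [Set.mem_Ioi, not_lt] at hx
      rw [FF_zero hx]
      simp
  rw [h4]
  apply setLIntegral_congr_fun measurableSet_Ioi
  intro t ht
  have ht0 : (0:ℝ) < t := ht
  simp only
  rw [← ofReal_norm, ← ENNReal.ofReal_pow (norm_nonneg _), ← ENNReal.ofReal_mul (by positivity)]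
  congr 1
  unfold FF
  rw [norm_mul, exp_norm, gf_norm, mul_pow, mul_pow, mul_pow, Real.sq_sqrt ht0.le]
  congr 1
  rw [← Real.exp_nat_mul]
  congr 1
  simp
  ring

lemma HP_lint (F : ℂ → ℝ≥0∞) (hF : Measurable F) :
    ∫⁻ z in HP, F z = ∫⁻ y in Set.Ioi (0:ℝ), ∫⁻ x : ℝ, F (x + y * I) := by
  have h1 := Complex.volume_preserving_equiv_real_prod.symm.setLIntegral_comp_preimage_emb
    (Complex.measurableEquivRealProd.symm.measurableEmbedding) F HP
  rw [← h1]
  have h2 : (⇑Complex.measurableEquivRealProd.symm ⁻¹' HP) = Set.univ ×ˢ Set.Ioi (0:ℝ) := by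
    ext p
    simp [HP, Complex.measurableEquivRealProd]
  rw [h2]
  have h3 := setLIntegral_prod_symm (μ := (volume : Measure ℝ)) (ν := (volume : Measure ℝ))
    (s := Set.univ) (t := Set.Ioi (0:ℝ)) (fun p => F (Complex.measurableEquivRealProd.symm p))
    ((hF.comp Complex.measurableEquivRealProd.symm.measurable).aemeasurable)
  rw [Measure.volume_eq_prod, h3]
  apply setLIntegral_congr_fun measurableSet_Ioi
  intro y _
  simp only [Measure.restrict_univ]
  congr 1
  funext x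
  congr 1
  apply Complex.ext <;> simp

lemma inner_int {t : ℝ} (ht : 0 < t) :
    ∫⁻ y in Set.Ioi (0:ℝ), ENNReal.ofReal (y ^ (-1 / 2 : ℝ)) *
      ENNReal.ofReal (Real.exp (-(2 * Real.pi * t * y)))
    = ENNReal.ofReal ((1 / (2 * Real.pi * t)) ^ (1 / 2 : ℝ) * Real.Gamma (1 / 2)) := by
  have hr : 0 < 2 * Real.pi * t := by have := Real.pi_pos; positivity
  have h1 := Real.integral_rpow_mul_exp_neg_mul_Ioi (a := 1 / 2) (by norm_num) hr
  rw [← h1, ofReal_integral_eq_lintegral_ofReal]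
  · apply setLIntegral_congr_fun measurableSet_Ioi
    intro y hy
    have hy0 : (0:ℝ) < y := hy
    simp only
    rw [← ENNReal.ofReal_mul (by positivity)]
    congr 2
    norm_num
  · by_contra hcon
    have h2 : ∫ (t_1 : ℝ) in Set.Ioi 0, t_1 ^ ((1:ℝ) / 2 - 1) *
      Real.exp (-(2 * Real.pi * t * t_1)) = 0 := integral_undef hcon
    rw [h2] at h1
    have h3 : 0 < Real.Gamma (1 / 2) := Real.Gamma_pos_of_pos (by norm_num)
    have : 0 < (1 / (2 * Real.pi * t)) ^ (1 / 2 : ℝ) * Real.Gamma (1 / 2) := by positivity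
    linarith
  · refine (ae_restrict_iff' measurableSet_Ioi).2 (Eventually.of_forall fun s hs => ?_)
    have hs0 : (0:ℝ) < s := hs
    simp only [Pi.zero_apply]
    positivity

lemma final_int (h : FDat ε f) :
    IntegrableOn (fun t : ℝ => t ^ (1 / 2 : ℝ) * ‖f (Real.sqrt t)‖ ^ 2) (Set.Ioi 0) := by
  rw [← integrableOn_Ioi_comp_rpow_iff _ (by norm_num : (2:ℝ) ≠ 0)]
  have h1 : Integrable (fun x : ℝ => 2 * (‖f x‖ ^ 2 * (1 + x ^ 2))) := h.int2.const_mul 2
  refine Integrable.mono' h1.integrableOn ?_ ?_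
  · apply Measurable.aestronglyMeasurable
    have := h.cont.measurable
    fun_prop
  · refine (ae_restrict_iff' measurableSet_Ioi).2 (Eventually.of_forall fun s hs => ?_)
    have hs0 : (0:ℝ) < s := hs
    have e1 : s ^ (2:ℝ) = s ^ 2 := by norm_cast
    have e2 : s ^ ((2:ℝ) - 1) = s := by norm_num
    have e3 : (s ^ 2) ^ (1 / 2 : ℝ) = s := by
      rw [← Real.sqrt_eq_rpow, Real.sqrt_sq hs0.le]
    rw [e1, e2, e3, Real.sqrt_sq hs0.le, smul_eq_mul, abs_of_pos (by norm_num : (0:ℝ) < 2)]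
    rw [Real.norm_of_nonneg (by positivity)]
    have : 0 ≤ ‖f s‖ ^ 2 := by positivity
    nlinarith

theorem main2 : Pool.Agent.W759.StPhi2 := by
  intro ε f h hd
  have hm : Measurable fun z : ℂ => ENNReal.ofReal (z.im ^ (-1 / 2 : ℝ)) * ‖deriv (Phi f) z‖ₑ ^ 2 := by
    have := measurable_deriv (Phi f)
    have h2 : Measurable fun z : ℂ => z.im ^ (-1 / 2 : ℝ) := Complex.measurable_im.pow_const _
    exact h2.ennreal_ofReal.mul (this.enorm.pow_const 2)
  rw [HP_lint _ hm]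
  have hfm := h.cont.measurable
  have e1 : ∫⁻ y in Set.Ioi (0:ℝ), ∫⁻ x : ℝ, ENNReal.ofReal (((x : ℂ) + y * I).im ^ (-1 / 2 : ℝ)) *
        ‖deriv (Phi f) (x + y * I)‖ₑ ^ 2
      = ∫⁻ y in Set.Ioi (0:ℝ), ∫⁻ t in Set.Ioi (0:ℝ), (2 * (ENNReal.ofReal (y ^ (-1 / 2 : ℝ)) *
        (ENNReal.ofReal (Real.pi ^ 2 * t * ‖f (Real.sqrt t)‖ ^ 2) *
        ENNReal.ofReal (Real.exp (-(2 * Real.pi * t * y)))))) := by
    apply setLIntegral_congr_fun measurableSet_Ioi
    intro y hy
    simp only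
    have e2 : ∀ x : ℝ, ((x : ℂ) + y * I).im = y := by intro x; simp
    simp_rw [e2]
    rw [lintegral_const_mul _ (by
      have h3 := measurable_deriv (Phi f)
      have h4 : Measurable fun x : ℝ => (x : ℂ) + y * I := by fun_prop
      exact (h3.comp h4).enorm.pow_const 2), line_L2 h hd hy]
    rw [lintegral_const_mul _ (by fun_prop), lintegral_const_mul _ (by fun_prop)]
    ring
  rw [e1, lintegral_lintegral_swap (by
    apply Measurable.aemeasurable
    unfold Function.uncurry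
    fun_prop)]
  have e3 : ∫⁻ t in Set.Ioi (0:ℝ), ∫⁻ y in Set.Ioi (0:ℝ),
      (2 * (ENNReal.ofReal (y ^ (-1 / 2 : ℝ)) *
        (ENNReal.ofReal (Real.pi ^ 2 * t * ‖f (Real.sqrt t)‖ ^ 2) *
        ENNReal.ofReal (Real.exp (-(2 * Real.pi * t * y))))))
      = ∫⁻ t in Set.Ioi (0:ℝ), ENNReal.ofReal
        ((2 * Real.pi ^ 2 * ((1 / (2 * Real.pi)) ^ (1 / 2 : ℝ) * Real.Gamma (1 / 2))) *
          (t ^ (1 / 2 : ℝ) * ‖f (Real.sqrt t)‖ ^ 2)) := by
    apply setLIntegral_congr_fun measurableSet_Ioi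
    intro t ht
    have ht0 : (0:ℝ) < t := ht
    simp only
    have e4 : ∀ y : ℝ, (2 : ℝ≥0∞) * (ENNReal.ofReal (y ^ (-1 / 2 : ℝ)) *
        (ENNReal.ofReal (Real.pi ^ 2 * t * ‖f (Real.sqrt t)‖ ^ 2) *
        ENNReal.ofReal (Real.exp (-(2 * Real.pi * t * y)))))
        = (2 * ENNReal.ofReal (Real.pi ^ 2 * t * ‖f (Real.sqrt t)‖ ^ 2)) *
          (ENNReal.ofReal (y ^ (-1 / 2 : ℝ)) *
            ENNReal.ofReal (Real.exp (-(2 * Real.pi * t * y)))) := by
      intro y; ring
    simp_rw [e4]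
    rw [lintegral_const_mul _ (by fun_prop), inner_int ht0]
    have e5 : (2 : ℝ≥0∞) = ENNReal.ofReal 2 := by norm_num
    have hG : 0 < Real.Gamma (1 / 2) := Real.Gamma_pos_of_pos (by norm_num)
    rw [e5, ← ENNReal.ofReal_mul (by norm_num), ← ENNReal.ofReal_mul (by positivity)]
    congr 1
    have hp := Real.pi_pos
    have e6 : 1 / (2 * Real.pi * t) = 1 / (2 * Real.pi) * t⁻¹ := by field_simp
    rw [e6, Real.mul_rpow (by positivity) (by positivity), Real.inv_rpow ht0.le,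
      ← Real.sqrt_eq_rpow, ← Real.sqrt_eq_rpow]
    have e7 : t = Real.sqrt t * Real.sqrt t := (Real.mul_self_sqrt ht0.le).symm
    have e8 : 0 < Real.sqrt t := Real.sqrt_pos.2 ht0
    have e9 : t * (Real.sqrt t)⁻¹ = Real.sqrt t := by
      rw [← div_eq_mul_inv, Real.div_sqrt]
    calc 2 * (Real.pi ^ 2 * t * ‖f (Real.sqrt t)‖ ^ 2) *
          (Real.sqrt (1 / (2 * Real.pi)) * (Real.sqrt t)⁻¹ * Real.Gamma (1 / 2))
        = (2 * Real.pi ^ 2 * (Real.sqrt (1 / (2 * Real.pi)) * Real.Gamma (1 / 2))) *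
          ((t * (Real.sqrt t)⁻¹) * ‖f (Real.sqrt t)‖ ^ 2) := by ring
      _ = _ := by rw [e9]
  rw [e3]
  exact ((final_int h).const_mul _).lintegral_lt_top

end Pool.Agent.W345.Phi
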