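import Pool.Agent.W345.Phi.Base
set_option autoImplicit false

/-! PHI4: Poisson summation. -/

namespace Pool.Agent.W345.Phi

open Complex MeasureTheory Filter Topology Asymptotics
open scoped ENNReal FourierTransform
open Pool.Agent.W759

variable {ε : ℂ} {f : ℝ → ℂ}

/-- the summand -/
noncomputable def FF (f : ℝ → ℂ) (z : ℂ) (s : ℝ) : ℂ := gf f s * exp (I * Real.pi * z * s)

lemma FF_cont (h : FDat ε f) (z : ℂ) : Continuous (FF f z) := by
  unfold FF
  have := gf_cont h
  fun_prop

lemma FF_norm (h : FDat ε f) {z : ℂ} {s : ℝ} (hs : 0 ≤ s) :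
    ‖FF f z s‖ ≤ Real.pi * CB f * (1 + s) * Real.exp (-(Real.pi * z.im * s)) := by
  unfold FF
  rw [norm_mul, exp_norm, gf_norm]
  have h1 := bdd h (Real.sqrt s)
  have h2 : Real.sqrt s ≤ 1 + s := by
    rw [Real.sqrt_le_left (by positivity)]
    nlinarith
  have h3 : 0 ≤ CB f := CB_nonneg
  apply mul_le_mul_of_nonneg_right _ (Real.exp_pos _).le
  calc Real.pi * Real.sqrt s * ‖f (Real.sqrt s)‖ ≤ Real.pi * (1 + s) * CB f := by gcongr
    _ = _ := by ring

lemma FF_decay (h : FDat ε f) {z : ℂ} (hz : 0 < z.im) :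
    FF f z =O[cocompact ℝ] fun x : ℝ => |x| ^ (-2 : ℝ) := by
  rw [cocompact_eq_atBot_atTop, isBigO_sup]
  constructor
  · apply IsBigO.of_bound 1
    filter_upwards [eventually_le_atBot (0 : ℝ)] with x hx
    unfold FF
    rw [gf_neg hx, zero_mul, norm_zero]
    positivity
  · have hc : 0 < Real.pi * z.im := by have := Real.pi_pos; positivity
    have h1 : (fun s : ℝ => Real.exp (-(Real.pi * z.im) * s)) =o[atTop] fun s : ℝ => s ^ (-3 : ℝ) :=
      isLittleO_exp_neg_mul_rpow_atTop hc _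
    have h2 : (FF f z) =O[atTop] fun s : ℝ => s * s ^ (-3 : ℝ) := by
      have h3 : (FF f z) =O[atTop] fun s : ℝ => s * Real.exp (-(Real.pi * z.im) * s) := by
        apply IsBigO.of_bound (Real.pi * CB f * 2)
        filter_upwards [eventually_ge_atTop (1 : ℝ)] with s hs
        refine (FF_norm h (by linarith)).trans ?_
        have e : -(Real.pi * z.im * s) = -(Real.pi * z.im) * s := by ring
        have h3 : 0 ≤ CB f := CB_nonneg
        rw [norm_mul, Real.norm_of_nonneg (by linarith : (0:ℝ) ≤ s),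
          Real.norm_of_nonneg (Real.exp_pos _).le, e, ← mul_assoc]
        apply mul_le_mul_of_nonneg_right _ (Real.exp_pos _).le
        have : (0:ℝ) ≤ Real.pi * CB f := by have := Real.pi_pos; positivity
        nlinarith
      exact h3.trans ((isBigO_refl (fun s : ℝ => s) _).mul h1.isBigO)
    refine h2.trans ?_
    apply IsBigO.of_bound 1
    filter_upwards [eventually_gt_atTop (0 : ℝ)] with s hs
    rw [one_mul, abs_of_pos hs]
    apply le_of_eq
    congr 1
    rw [← Real.rpow_one_add' hs.le (by norm_num)]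
    norm_num

lemma FF_four (f : ℝ → ℂ) (z : ℂ) (k : ℤ) : 𝓕 (FF f z) (k : ℝ)
    = ∫ t in Set.Ioi (0 : ℝ), gf f t * exp (I * Real.pi * (z + 2 * (-k : ℤ)) * t) := by
  rw [Real.fourier_real_eq_integral_exp_smul]
  rw [← setIntegral_eq_integral_of_forall_compl_eq_zero (s := Set.Ioi (0:ℝ))]
  · apply setIntegral_congr_fun measurableSet_Ioi
    intro t ht
    simp only [FF, smul_eq_mul]
    rw [mul_comm, mul_assoc, ← Complex.exp_add]
    congr 2
    push_cast
    ring
  · intro t ht
    rw [Set.mem_Ioi, not_lt] at ht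
    simp only [FF]
    rw [gf_neg ht]
    simp

theorem main4 : Pool.Agent.W759.StPhi4 := by
  intro ε f h hd z hz hs
  have hc : ∀ k : ℤ, deriv (Phi f) (z + 2 * k)
      = ∫ t in Set.Ioi (0 : ℝ), gf f t * exp (I * Real.pi * (z + 2 * k) * t) := by
    intro k
    apply hd
    rw [Complex.add_im]
    have : (2 * (k:ℂ)).im = 0 := by simp
    rw [this, add_zero]
    exact hz
  have h1 : ∀ k : ℤ, 𝓕 (FF f z) (k : ℝ) = deriv (Phi f) (z + 2 * (-k : ℤ)) := by
    intro k
    rw [FF_four, hc]
  have h2 : Summable fun k : ℤ => 𝓕 (FF f z) (k : ℝ) := by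
    have := (Equiv.neg ℤ).summable_iff.2 hs
    refine this.congr ?_
    intro k
    rw [h1]
    rfl
  have h3 := Real.tsum_eq_tsum_fourier_of_rpow_decay_of_summable (FF_cont h z)
    (by norm_num : (1:ℝ) < 2) (FF_decay h hz) h2 0
  have h4 : ∑' n : ℤ, FF f z ((0:ℝ) + n) = 0 := by
    have : ∀ n : ℤ, FF f z ((0:ℝ) + n) = 0 := by
      intro n
      rw [zero_add]
      unfold FF
      rw [gf_int h n, zero_mul]
    simp_rw [this]
    exact tsum_zero
  rw [h4] at h3
  rw [← (Equiv.neg ℤ).tsum_eq, h3]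
  apply tsum_congr
  intro k
  rw [h1 k]
  simp [fourier_apply]

end Pool.Agent.W345.Phi
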