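import Pool.Agent.W759.Stmts2
import Pool.Agent.W759.Fc
set_option autoImplicit false

/-! Basic facts on `FDat`. -/

namespace Pool.Agent.W345.Phi

open Complex MeasureTheory Filter Topology
open scoped ENNReal FourierTransform
open Pool.Agent.W759

variable {ε : ℂ} {f : ℝ → ℂ}

lemma norm_eps (h : FDat ε f) : ‖ε‖ = 1 := by
  rcases h.hε with h | h <;> simp [h]

lemma integ (h : FDat ε f) : Integrable f := by
  have h1 : Integrable (fun x : ℝ => ‖f x‖ ^ 2 * (1 + x ^ 2) + (1 + x ^ 2)⁻¹) :=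
    h.int2.add integrable_inv_one_add_sq
  refine Integrable.mono' h1 h.cont.aestronglyMeasurable (Eventually.of_forall fun x => ?_)
  have hp : 0 < 1 + x ^ 2 := by positivity
  have h2 : 0 ≤ (‖f x‖ * (1 + x ^ 2) - 1) ^ 2 := sq_nonneg _
  have h3 : ‖f x‖ ^ 2 * (1 + x ^ 2) + (1 + x ^ 2)⁻¹ - 2 * ‖f x‖
      = (‖f x‖ * (1 + x ^ 2) - 1) ^ 2 * (1 + x ^ 2)⁻¹ := by
    field_simp
    ring
  have h4 : 0 ≤ (‖f x‖ * (1 + x ^ 2) - 1) ^ 2 * (1 + x ^ 2)⁻¹ := by positivity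
  nlinarith [norm_nonneg (f x)]

/-- the bound -/
noncomputable def CB (f : ℝ → ℂ) : ℝ := ∫ x, ‖f x‖

lemma CB_nonneg : 0 ≤ CB f := integral_nonneg fun _ => norm_nonneg _

lemma bdd (h : FDat ε f) (x : ℝ) : ‖f x‖ ≤ CB f := by
  have h1 : ‖f x‖ = ‖𝓕 f x‖ := by
    rw [h.four, norm_mul, norm_eps h, one_mul]
  rw [h1]
  exact VectorFourier.norm_fourierIntegral_le_integral_norm _ _ _ _ _

lemma gf_cont (h : FDat ε f) : Continuous (gf f) := by
  unfold gf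
  have := h.cont
  fun_prop

lemma gf_norm (t : ℝ) : ‖gf f t‖ = Real.pi * Real.sqrt t * ‖f (Real.sqrt t)‖ := by
  unfold gf
  rw [norm_mul, norm_mul, norm_mul, Complex.norm_I, one_mul, Complex.norm_real, Complex.norm_real,
    Real.norm_of_nonneg Real.pi_pos.le, Real.norm_of_nonneg (Real.sqrt_nonneg _)]

lemma gf_neg {t : ℝ} (ht : t ≤ 0) : gf f t = 0 := by
  unfold gf
  rw [Real.sqrt_eq_zero_of_nonpos ht]
  simp

lemma gf_nat (h : FDat ε f) (n : ℕ) : gf f n = 0 := by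
  unfold gf
  rw [h.zero n]
  simp

lemma gf_int (h : FDat ε f) (n : ℤ) : gf f n = 0 := by
  rcases le_or_gt n 0 with hn | hn
  · exact gf_neg (by exact_mod_cast hn)
  · obtain ⟨m, rfl⟩ := Int.eq_ofNat_of_zero_le hn.le
    exact_mod_cast gf_nat h m

lemma exp_norm (z : ℂ) (t : ℝ) : ‖exp (I * Real.pi * z * t)‖ = Real.exp (-(Real.pi * z.im * t)) := by
  rw [Complex.norm_exp]
  congr 1
  simp

end Pool.Agent.W345.Phi
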